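import Pool.Agent.Y154.Q440.Leaf
import Pool.Agent.Y440.K.Stm3

/-! LEAF2: the meaning of the second form of the check of one word. Adapted from the proof of LEAF by
helper154. -/

set_option autoImplicit false
set_option maxRecDepth 100000

open Pool.Agent.Y440.A (Odd4 cd fl cd7 L8f D8f t7f b10)

namespace Pool.Agent.Y664.Q440

open Pool.Agent.Y440 Pool.Agent.Y440.K
open Pool.Agent.Y154.Q440 (part land_shift mR_eq rq_c7 rq_c7_lt)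

theorem rf_eq (x : ℕ) : rf x = rq x := by
  unfold rf rq
  rw [B.st_eq, B.st_eq, B.st_eq]

theorem RB_eq (s : ℕ) (hs : s < 2 ^ 9744) :
    Nat.land (Nat.shiftRight s 4872) mR = Nat.shiftRight s 4872 := by
  rw [land_shift s 4872 mR 4872 mR_eq]
  have h1 : s >>> 4872 = s / 2 ^ 4872 := Nat.shiftRight_eq_div_pow _ _
  have h2 : Nat.shiftRight s 4872 = s / 2 ^ 4872 := h1
  rw [h2]
  unfold part
  refine Nat.mod_eq_of_lt ?_
  rw [Nat.div_lt_iff_lt_mul (Nat.two_pow_pos _), ← pow_add]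
  exact hs

theorem RA_eq (s : ℕ) : Nat.land (Nat.shiftRight s 0) mR = Nat.land s mR := rfl

section
variable {V : Type} (E : V → V → V → V → ℕ)

/-- the value for one pair -/
theorem pair2 (hv : S_val) (hi : S_idx) (hE : Odd4 E) (a b c d e f u v : V) (n n' i j : ℕ)
    (h1 : f20 (Y7 n) i = B.c7 E a b c d e f u)
    (h2 : f20 (Y7 n') j = B.c7 E a b c d e f v) :
    (pr n i n' j : ℤ) = kap E a b c d e f u v + cof := by
  have e1 : pr n i n' j = dt (rq (B.c7 E a b c d e f u)) 0 (rq (B.c7 E a b c d e f v)) 4872 := by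
    unfold pr RA RB dt
    rw [rf_eq, rf_eq, h1, h2, RA_eq, RB_eq _ (rq_c7_lt E hv hi hE a b c d e f v)]
  rw [e1, rq_c7 E hE, rq_c7 E hE]
  unfold kap K0 dd
  ring

end

theorem t (hv : S_val) (hi : S_idx) (hf : B.S_fields) (h7 : S_y7) : S_leaf2 := by
  intro V E hE x hl
  obtain ⟨hf1, hf2⟩ := hf V E hE x
  have hD := hf1 0 (by norm_num)
  have g0 := hf2 0 (by norm_num)
  have g1 := hf2 1 (by norm_num)
  have g2 := hf2 2 (by norm_num)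
  have g3 := hf2 3 (by norm_num)
  have g4 := hf2 4 (by norm_num)
  have g5 := hf2 5 (by norm_num)
  have g6 := hf2 6 (by norm_num)
  have g7 := hf2 7 (by norm_num)
  simp only [B.lns, B.fds, List.getD_cons_zero, List.getD_cons_succ] at hD g0 g1 g2 g3 g4 g5 g6 g7
  have hs : ∀ X k : ℕ, f20 X k = X / 2 ^ k % 1048576 := fun X k => by
    have : (X >>> k) % 1048576 = X / 2 ^ k % 1048576 := by rw [Nat.shiftRight_eq_div_pow]
    exact this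
  have n0 : f20 (B.wd E x) 72 = B.c7 E (x 1) (x 2) (x 3) (x 4) (x 5) (x 6) (x 7) := by rw [hs]; exact g0
  have n1 : f20 (B.wd E x) 92 = B.c7 E (x 0) (x 2) (x 3) (x 4) (x 5) (x 6) (x 7) := by rw [hs]; exact g1
  have n2 : f20 (B.wd E x) 112 = B.c7 E (x 0) (x 1) (x 3) (x 4) (x 5) (x 6) (x 7) := by rw [hs]; exact g2
  have n3 : f20 (B.wd E x) 132 = B.c7 E (x 0) (x 1) (x 2) (x 4) (x 5) (x 6) (x 7) := by rw [hs]; exact g3
  have n4 : f20 (B.wd E x) 152 = B.c7 E (x 0) (x 1) (x 2) (x 3) (x 5) (x 6) (x 7) := by rw [hs]; exact g4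
  have n5 : f20 (B.wd E x) 172 = B.c7 E (x 0) (x 1) (x 2) (x 3) (x 4) (x 6) (x 7) := by rw [hs]; exact g5
  have n6 : f20 (B.wd E x) 192 = B.c7 E (x 0) (x 1) (x 2) (x 3) (x 4) (x 5) (x 7) := by rw [hs]; exact g6
  have n7 : f20 (B.wd E x) 212 = B.c7 E (x 0) (x 1) (x 2) (x 3) (x 4) (x 5) (x 6) := by rw [hs]; exact g7
  unfold leaf2 at hl
  rw [B.st_eq, n7] at hl
  simp only [B.st_eq, m7, m6, m5, m4, m3, m2, m1, n6, n5, n4, n3, n2, n1, n0] at hl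
  unfold m0 at hl
  have hl2 := Nat.le_of_ble_eq_true hl
  obtain ⟨y00, y01, y02, y03, y04, y05, y06⟩ := h7 V E hE (x 1) (x 2) (x 3) (x 4) (x 5) (x 6) (x 7)
  obtain ⟨y10, y11, y12, y13, y14, y15, y16⟩ := h7 V E hE (x 0) (x 2) (x 3) (x 4) (x 5) (x 6) (x 7)
  obtain ⟨y20, y21, y22, y23, y24, y25, y26⟩ := h7 V E hE (x 0) (x 1) (x 3) (x 4) (x 5) (x 6) (x 7)
  obtain ⟨y30, y31, y32, y33, y34, y35, y36⟩ := h7 V E hE (x 0) (x 1) (x 2) (x 4) (x 5) (x 6) (x 7)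
  obtain ⟨y40, y41, y42, y43, y44, y45, y46⟩ := h7 V E hE (x 0) (x 1) (x 2) (x 3) (x 5) (x 6) (x 7)
  obtain ⟨y50, y51, y52, y53, y54, y55, y56⟩ := h7 V E hE (x 0) (x 1) (x 2) (x 3) (x 4) (x 6) (x 7)
  obtain ⟨y60, y61, y62, y63, y64, y65, y66⟩ := h7 V E hE (x 0) (x 1) (x 2) (x 3) (x 4) (x 5) (x 7)
  obtain ⟨y70, y71, y72, y73, y74, y75, y76⟩ := h7 V E hE (x 0) (x 1) (x 2) (x 3) (x 4) (x 5) (x 6)
  have p01 := pair2 E hv hi hE (x 2) (x 3) (x 4) (x 5) (x 6) (x 7) (x 0) (x 1) _ _ 0 0 y10 y00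
  have p02 := pair2 E hv hi hE (x 1) (x 3) (x 4) (x 5) (x 6) (x 7) (x 0) (x 2) _ _ 0 20 y20 y01
  have p03 := pair2 E hv hi hE (x 1) (x 2) (x 4) (x 5) (x 6) (x 7) (x 0) (x 3) _ _ 0 40 y30 y02
  have p04 := pair2 E hv hi hE (x 1) (x 2) (x 3) (x 5) (x 6) (x 7) (x 0) (x 4) _ _ 0 60 y40 y03
  have p05 := pair2 E hv hi hE (x 1) (x 2) (x 3) (x 4) (x 6) (x 7) (x 0) (x 5) _ _ 0 80 y50 y04
  have p06 := pair2 E hv hi hE (x 1) (x 2) (x 3) (x 4) (x 5) (x 7) (x 0) (x 6) _ _ 0 100 y60 y05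
  have p07 := pair2 E hv hi hE (x 1) (x 2) (x 3) (x 4) (x 5) (x 6) (x 0) (x 7) _ _ 0 120 y70 y06
  have p12 := pair2 E hv hi hE (x 0) (x 3) (x 4) (x 5) (x 6) (x 7) (x 1) (x 2) _ _ 20 20 y21 y11
  have p13 := pair2 E hv hi hE (x 0) (x 2) (x 4) (x 5) (x 6) (x 7) (x 1) (x 3) _ _ 20 40 y31 y12
  have p14 := pair2 E hv hi hE (x 0) (x 2) (x 3) (x 5) (x 6) (x 7) (x 1) (x 4) _ _ 20 60 y41 y13
  have p15 := pair2 E hv hi hE (x 0) (x 2) (x 3) (x 4) (x 6) (x 7) (x 1) (x 5) _ _ 20 80 y51 y14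
  have p16 := pair2 E hv hi hE (x 0) (x 2) (x 3) (x 4) (x 5) (x 7) (x 1) (x 6) _ _ 20 100 y61 y15
  have p17 := pair2 E hv hi hE (x 0) (x 2) (x 3) (x 4) (x 5) (x 6) (x 1) (x 7) _ _ 20 120 y71 y16
  have p23 := pair2 E hv hi hE (x 0) (x 1) (x 4) (x 5) (x 6) (x 7) (x 2) (x 3) _ _ 40 40 y32 y22
  have p24 := pair2 E hv hi hE (x 0) (x 1) (x 3) (x 5) (x 6) (x 7) (x 2) (x 4) _ _ 40 60 y42 y23
  have p25 := pair2 E hv hi hE (x 0) (x 1) (x 3) (x 4) (x 6) (x 7) (x 2) (x 5) _ _ 40 80 y52 y24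
  have p26 := pair2 E hv hi hE (x 0) (x 1) (x 3) (x 4) (x 5) (x 7) (x 2) (x 6) _ _ 40 100 y62 y25
  have p27 := pair2 E hv hi hE (x 0) (x 1) (x 3) (x 4) (x 5) (x 6) (x 2) (x 7) _ _ 40 120 y72 y26
  have p34 := pair2 E hv hi hE (x 0) (x 1) (x 2) (x 5) (x 6) (x 7) (x 3) (x 4) _ _ 60 60 y43 y33
  have p35 := pair2 E hv hi hE (x 0) (x 1) (x 2) (x 4) (x 6) (x 7) (x 3) (x 5) _ _ 60 80 y53 y34
  have p36 := pair2 E hv hi hE (x 0) (x 1) (x 2) (x 4) (x 5) (x 7) (x 3) (x 6) _ _ 60 100 y63 y35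
  have p37 := pair2 E hv hi hE (x 0) (x 1) (x 2) (x 4) (x 5) (x 6) (x 3) (x 7) _ _ 60 120 y73 y36
  have p45 := pair2 E hv hi hE (x 0) (x 1) (x 2) (x 3) (x 6) (x 7) (x 4) (x 5) _ _ 80 80 y54 y44
  have p46 := pair2 E hv hi hE (x 0) (x 1) (x 2) (x 3) (x 5) (x 7) (x 4) (x 6) _ _ 80 100 y64 y45
  have p47 := pair2 E hv hi hE (x 0) (x 1) (x 2) (x 3) (x 5) (x 6) (x 4) (x 7) _ _ 80 120 y74 y46
  have p56 := pair2 E hv hi hE (x 0) (x 1) (x 2) (x 3) (x 4) (x 7) (x 5) (x 6) _ _ 100 100 y65 y55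
  have p57 := pair2 E hv hi hE (x 0) (x 1) (x 2) (x 3) (x 4) (x 6) (x 5) (x 7) _ _ 100 120 y75 y56
  have p67 := pair2 E hv hi hE (x 0) (x 1) (x 2) (x 3) (x 4) (x 5) (x 6) (x 7) _ _ 120 120 y76 y66
  have hX : Nat.mod (B.wd E x) 256 = D8f E x := by
    have : B.wd E x % 256 = D8f E x := by
      have h2 : B.wd E x / 2 ^ (8 * 0) = B.wd E x := by rw [Nat.mul_zero, pow_zero, Nat.div_one]
      rw [h2] at hD
      exact hD
    exact this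
  rw [hX] at hl2
  unfold S28 at hl2
  have hl3 := Int.ofNat_le.2 hl2
  simp only [Nat.add_eq, Nat.mul_eq, Nat.cast_add, Nat.cast_mul, Nat.cast_ofNat] at hl3
  simp only [p01, p02, p03, p04, p05, p06, p07, p12, p13, p14, p15, p16, p17, p23, p24, p25, p26, p27, p34, p35, p36, p37, p45, p46, p47, p56, p57, p67] at hl3
  unfold L8f Pool.Agent.Y440.A.L8
  have hc : cof = 1218101226441168 := rfl
  rw [hc] at hl3
  linarith

end Pool.Agent.Y664.Q440
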